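import Mathlib

/-!
# Consecutive inclusions of the Čech complexes of the hypercube graphs are null-homotopic

`N(I_n, r)` is the Čech complex of the hypercube graph `I_n` on `{0,1}^n`: for `r = 2 s` its
simplices are the nonempty subsets of the balls `N_s[v]`, for `r = 2 s + 1` the nonempty subsets
of the sets `N_s[v] ∪ N_s[w]`, `v w` an edge.  We prove that the inclusion of `N(I_n, r)` into
`N(I_n, r + 1)` is null-homotopic for every `n ≥ 1` and every `r ≥ 0`.

The proof deforms the vertex set to one vertex by setting one coordinate after the other to `0`.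
For even `r` two consecutive maps are contiguous into `N(I_n, r + 1)`.  For odd `r` they are not;
there the coordinate is first set to `0` in the vertices of even weight only, and then in the
vertices of odd weight.  Both steps are contiguous into `N(I_n, r + 1)`: the two ends of the edge
`v w` have different parities, so one of them is at distance at most `(r - 1) / 2` from all the
moved vertices.
-/

set_option autoImplicit false

open scoped BigOperators

namespace Pool.Agent.Results.MP_117f64_co.ConsecutiveInclusions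

/-- the vertex set `{0,1}^n` of the hypercube graph; `hammingDist` is the graph distance -/
abbrev Cube (n : ℕ) : Type := Fin n → Bool

/-- `σ` is a simplex of the Čech complex `N(I_n, r)`: a nonempty subset of a ball `N_{r/2}[v]`
(if `r` is even), or of `N_{(r-1)/2}[v] ∪ N_{(r-1)/2}[w]` for an edge `v w` (if `r` is odd) -/
def IsSimplex (n r : ℕ) (σ : Finset (Cube n)) : Prop :=
  σ.Nonempty ∧
    ((Even r ∧ ∃ v : Cube n, ∀ x ∈ σ, hammingDist v x ≤ r / 2) ∨
      (Odd r ∧ ∃ v w : Cube n, hammingDist v w = 1 ∧
        ∀ x ∈ σ, hammingDist v x ≤ (r - 1) / 2 ∨ hammingDist w x ≤ (r - 1) / 2))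

/-- the geometric realization of `N(I_n, r)`: the probability vectors on the vertex set whose
support is a simplex, with the topology of `ℝ^(2^n)` -/
def Realization (n r : ℕ) : Set (Cube n → ℝ) :=
  {w | (∀ x, 0 ≤ w x) ∧ ∑ x, w x = 1 ∧ IsSimplex n r (Finset.univ.filter fun x => w x ≠ 0)}

variable {n : ℕ}

/-- set the coordinate `j` to `0` -/
def lower (j : Fin n) (x : Cube n) : Cube n := Function.update x j false

/-- the parity of the weight of `x` -/
def par (x : Cube n) : ZMod 2 := ∑ i, if x i then 1 else 0

/-- set the coordinate `j` to `0` if `x` has even weight -/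
def lowerEven (j : Fin n) (x : Cube n) : Cube n := if par x = 0 then lower j x else x

/-! ### distances -/

theorem dist_lower_lower (j : Fin n) (v x : Cube n) :
    hammingDist (lower j v) (lower j x) ≤ hammingDist v x := by
  unfold hammingDist
  apply Finset.card_le_card
  intro i hi
  simp only [Finset.mem_filter, Finset.mem_univ, true_and, lower] at hi ⊢
  by_cases h : i = j
  · subst h; simp at hi
  · simpa [Function.update_of_ne h] using hi

theorem dist_lower_self (j : Fin n) (x : Cube n) : hammingDist (lower j x) x ≤ 1 := by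
  unfold hammingDist
  calc _ ≤ ({j} : Finset (Fin n)).card := by
        apply Finset.card_le_card
        intro i hi
        simp only [Finset.mem_filter, Finset.mem_univ, true_and, lower] at hi
        by_contra h
        simp only [Finset.mem_singleton] at h
        rw [Function.update_of_ne h] at hi
        exact hi rfl
    _ = 1 := by simp

theorem dist_lower_right (j : Fin n) (v x : Cube n) :
    hammingDist v (lower j x) ≤ hammingDist v x + 1 := by
  have h1 := hammingDist_triangle v x (lower j x)
  have h2 := dist_lower_self j x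
  rw [hammingDist_comm] at h2
  omega

theorem dist_lower_left (j : Fin n) (v x : Cube n) :
    hammingDist (lower j v) x ≤ hammingDist v x + 1 := by
  have h1 := hammingDist_triangle (lower j v) v x
  have h2 := dist_lower_self j v
  omega

theorem dist_par (v x : Cube n) : ((hammingDist v x : ℕ) : ZMod 2) = par v + par x := by
  unfold hammingDist par
  rw [Finset.card_filter, Nat.cast_sum, ← Finset.sum_add_distrib]
  apply Finset.sum_congr rfl
  intro i _
  cases v i <;> cases x i <;> simp; decide

theorem zmod_cases (a b c : ZMod 2) (h : a ≠ b) : a ≠ c ∨ b ≠ c := by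
  by_contra hcon
  push Not at hcon
  exact h (hcon.1.trans hcon.2.symm)

/-- one end `u` of the edge is at distance at most `s` from all vertices of parity `p` of `σ` -/
theorem exists_end {s : ℕ} {v w : Cube n} (h : hammingDist v w = 1) {σ : Finset (Cube n)}
    (hσ : ∀ x ∈ σ, hammingDist v x ≤ s ∨ hammingDist w x ≤ s) (p : ZMod 2) :
    ∃ u : Cube n, ∀ x ∈ σ, hammingDist u x ≤ s + 1 ∧ (par x = p → hammingDist u x ≤ s) := by
  have hall : ∀ x ∈ σ, hammingDist v x ≤ s + 1 ∧ hammingDist w x ≤ s + 1 := by
    intro x hx
    have h1 := hammingDist_triangle v w x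
    have h2 := hammingDist_triangle w v x
    rw [hammingDist_comm w v] at h2
    rcases hσ x hx with h3 | h3 <;> omega
  have hne : par v ≠ par w := by
    intro he
    have := dist_par v w
    rw [h, he] at this
    have h2 : par w + par w = 0 := CharTwo.add_self_eq_zero _
    rw [h2] at this
    exact absurd this (by decide)
  have key : ∀ u : Cube n, (∀ x ∈ σ, hammingDist u x ≤ s + 1) →
      par u ≠ ((s + 1 : ℕ) : ZMod 2) + p →
      ∀ x ∈ σ, hammingDist u x ≤ s + 1 ∧ (par x = p → hammingDist u x ≤ s) := by
    intro u hu hpu x hx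
    refine ⟨hu x hx, fun hp => ?_⟩
    by_contra hcon
    have he : hammingDist u x = s + 1 := by have := hu x hx; omega
    have h3 := dist_par u x
    rw [he, hp] at h3
    apply hpu
    rw [h3, add_assoc, CharTwo.add_self_eq_zero, add_zero]
  rcases zmod_cases (par v) (par w) (((s + 1 : ℕ) : ZMod 2) + p) hne with h1 | h1
  · exact ⟨v, key v (fun x hx => (hall x hx).1) h1⟩
  · exact ⟨w, key w (fun x hx => (hall x hx).2) h1⟩

/-- every vertex has a neighbour -/
theorem exists_nbr (hn : 1 ≤ n) (v : Cube n) : ∃ w : Cube n, hammingDist v w = 1 := by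
  let j : Fin n := ⟨0, hn⟩
  refine ⟨Function.update v j (!(v j)), ?_⟩
  unfold hammingDist
  rw [Finset.card_eq_one]
  refine ⟨j, ?_⟩
  ext i
  simp only [Finset.mem_filter, Finset.mem_univ, true_and, Finset.mem_singleton]
  constructor
  · intro h
    by_contra hij
    rw [Function.update_of_ne hij] at h
    exact h rfl
  · rintro rfl
    simp

/-! ### simplices -/

theorem IsSimplex.mono {r : ℕ} {σ τ : Finset (Cube n)} (h : IsSimplex n r σ) (hτ : τ ⊆ σ)
    (hne : τ.Nonempty) : IsSimplex n r τ := by
  refine ⟨hne, ?_⟩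
  rcases h.2 with ⟨he, v, hv⟩ | ⟨ho, v, w, hvw, hv⟩
  · exact Or.inl ⟨he, v, fun x hx => hv x (hτ hx)⟩
  · exact Or.inr ⟨ho, v, w, hvw, fun x hx => hv x (hτ hx)⟩

theorem IsSimplex.lower (hn : 1 ≤ n) {r : ℕ} {σ : Finset (Cube n)} (h : IsSimplex n r σ)
    (j : Fin n) : IsSimplex n r (σ.image (lower j)) := by
  refine ⟨h.1.image _, ?_⟩
  rcases h.2 with ⟨he, v, hv⟩ | ⟨ho, v, w, hvw, hv⟩
  · refine Or.inl ⟨he, ConsecutiveInclusions.lower j v, fun x hx => ?_⟩
    obtain ⟨y, hy, rfl⟩ := Finset.mem_image.1 hx
    exact (dist_lower_lower j v y).trans (hv y hy)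
  · right
    refine ⟨ho, ?_⟩
    have hle := dist_lower_lower j v w
    rw [hvw] at hle
    rcases Nat.lt_or_ge (hammingDist (ConsecutiveInclusions.lower j v)
      (ConsecutiveInclusions.lower j w)) 1 with h0 | h0
    · have heq : ConsecutiveInclusions.lower j v = ConsecutiveInclusions.lower j w := by
        apply eq_of_hammingDist_eq_zero; omega
      obtain ⟨u, hu⟩ := exists_nbr hn (ConsecutiveInclusions.lower j v)
      refine ⟨_, u, hu, fun x hx => ?_⟩
      obtain ⟨y, hy, rfl⟩ := Finset.mem_image.1 hx
      left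
      rcases hv y hy with h1 | h1
      · exact (dist_lower_lower j v y).trans h1
      · rw [heq]; exact (dist_lower_lower j w y).trans h1
    · refine ⟨_, _, le_antisymm hle h0, fun x hx => ?_⟩
      obtain ⟨y, hy, rfl⟩ := Finset.mem_image.1 hx
      rcases hv y hy with h1 | h1
      · exact Or.inl ((dist_lower_lower j v y).trans h1)
      · exact Or.inr ((dist_lower_lower j w y).trans h1)

/-- `φ` and `ψ` are contiguous as maps from `N(I_n, r)` to `N(I_n, r + 1)` -/
def Contig (r : ℕ) (φ ψ : Cube n → Cube n) : Prop :=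
  ∀ σ : Finset (Cube n), IsSimplex n r σ → IsSimplex n (r + 1) (σ.image φ ∪ σ.image ψ)

theorem contig_even (hn : 1 ≤ n) {r : ℕ} (hr : Even r) (j : Fin n) (φ : Cube n → Cube n)
    (hφ : ∀ σ : Finset (Cube n), IsSimplex n r σ → IsSimplex n r (σ.image φ)) :
    Contig r φ (lower j ∘ φ) := by
  intro σ hσ
  obtain ⟨hne, h⟩ := hφ σ hσ
  refine ⟨hne.mono Finset.subset_union_left, ?_⟩
  rcases h with ⟨_, c, hc⟩ | ⟨ho, _⟩
  swap
  · exact absurd hr (Nat.not_even_iff_odd.2 ho)
  right
  refine ⟨hr.add_one, ?_⟩
  have hs : (r + 1 - 1) / 2 = r / 2 := by simp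
  rw [hs]
  have h1 : hammingDist c (lower j c) ≤ 1 := by
    rw [hammingDist_comm]; exact dist_lower_self j c
  rcases Nat.lt_or_ge (hammingDist c (lower j c)) 1 with h0 | h0
  · have heq : c = lower j c := by apply eq_of_hammingDist_eq_zero; omega
    obtain ⟨u, hu⟩ := exists_nbr hn c
    refine ⟨c, u, hu, fun x hx => Or.inl ?_⟩
    rcases Finset.mem_union.1 hx with hx | hx
    · exact hc x hx
    · obtain ⟨y, hy, rfl⟩ := Finset.mem_image.1 hx
      have h2 := hc _ (Finset.mem_image_of_mem φ hy)
      calc hammingDist c ((lower j ∘ φ) y) = hammingDist (lower j c) (lower j (φ y)) := by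
            rw [← heq]; rfl
        _ ≤ hammingDist c (φ y) := dist_lower_lower j c (φ y)
        _ ≤ r / 2 := h2
  · refine ⟨c, lower j c, le_antisymm h1 h0, fun x hx => ?_⟩
    rcases Finset.mem_union.1 hx with hx | hx
    · exact Or.inl (hc x hx)
    · obtain ⟨y, hy, rfl⟩ := Finset.mem_image.1 hx
      exact Or.inr ((dist_lower_lower j c (φ y)).trans (hc _ (Finset.mem_image_of_mem φ hy)))

theorem contig_odd_one {r : ℕ} (hr : Odd r) (j : Fin n) (φ : Cube n → Cube n)
    (hφ : ∀ σ : Finset (Cube n), IsSimplex n r σ → IsSimplex n r (σ.image φ)) :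
    Contig r φ (lowerEven j ∘ φ) := by
  intro σ hσ
  obtain ⟨hne, h⟩ := hφ σ hσ
  refine ⟨hne.mono Finset.subset_union_left, ?_⟩
  rcases h with ⟨he, _⟩ | ⟨_, v, w, hvw, hv⟩
  · exact absurd he (Nat.not_even_iff_odd.2 hr)
  left
  refine ⟨hr.add_one, ?_⟩
  obtain ⟨u, hu⟩ := exists_end hvw hv 0
  have hs : (r + 1) / 2 = (r - 1) / 2 + 1 := by obtain ⟨s, rfl⟩ := hr; omega
  rw [hs]
  refine ⟨u, fun x hx => ?_⟩
  rcases Finset.mem_union.1 hx with hx | hx
  · exact (hu x hx).1
  · obtain ⟨y, hy, rfl⟩ := Finset.mem_image.1 hx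
    have h2 := hu _ (Finset.mem_image_of_mem φ hy)
    show hammingDist u (lowerEven j (φ y)) ≤ _
    unfold lowerEven
    split_ifs with hp
    · exact (dist_lower_right j u (φ y)).trans (Nat.add_le_add_right (h2.2 hp) 1)
    · exact h2.1

theorem par_cases (x : Cube n) (h : ¬ par x = 0) : par x = 1 := by
  revert h
  generalize par x = a
  revert a
  decide

theorem contig_odd_two {r : ℕ} (hr : Odd r) (j : Fin n) (φ : Cube n → Cube n)
    (hφ : ∀ σ : Finset (Cube n), IsSimplex n r σ → IsSimplex n r (σ.image φ)) :
    Contig r (lowerEven j ∘ φ) (lower j ∘ φ) := by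
  intro σ hσ
  obtain ⟨hne, h⟩ := hφ σ hσ
  refine ⟨(hσ.1.image _).mono Finset.subset_union_left, ?_⟩
  rcases h with ⟨he, _⟩ | ⟨_, v, w, hvw, hv⟩
  · exact absurd he (Nat.not_even_iff_odd.2 hr)
  left
  refine ⟨hr.add_one, ?_⟩
  obtain ⟨u, hu⟩ := exists_end hvw hv 1
  have hs : (r + 1) / 2 = (r - 1) / 2 + 1 := by obtain ⟨s, rfl⟩ := hr; omega
  rw [hs]
  refine ⟨lower j u, fun x hx => ?_⟩
  rcases Finset.mem_union.1 hx with hx | hx
  · obtain ⟨y, hy, rfl⟩ := Finset.mem_image.1 hx
    have h2 := hu _ (Finset.mem_image_of_mem φ hy)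
    show hammingDist (lower j u) (lowerEven j (φ y)) ≤ _
    unfold lowerEven
    split_ifs with hp
    · exact (dist_lower_lower j u (φ y)).trans h2.1
    · exact (dist_lower_left j u (φ y)).trans
        (Nat.add_le_add_right (h2.2 (par_cases _ hp)) 1)
  · obtain ⟨y, hy, rfl⟩ := Finset.mem_image.1 hx
    have h2 := hu _ (Finset.mem_image_of_mem φ hy)
    exact (dist_lower_lower j u (φ y)).trans h2.1

/-! ### realizations -/

/-- the linear map of the vectors induced by a map of the vertices -/
def push (φ : Cube n → Cube n) (w : Cube n → ℝ) : Cube n → ℝ :=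
  fun y => ∑ x, if φ x = y then w x else 0

theorem continuous_push (φ : Cube n → Cube n) : Continuous (push φ) := by
  unfold push
  refine continuous_pi fun y => continuous_finsetSum _ fun x _ => ?_
  split_ifs
  · exact continuous_apply x
  · exact continuous_const

theorem push_nonneg {φ : Cube n → Cube n} {w : Cube n → ℝ} (hw : ∀ x, 0 ≤ w x) (y : Cube n) :
    0 ≤ push φ w y := by
  unfold push
  refine Finset.sum_nonneg fun x _ => ?_
  split_ifs
  · exact hw x
  · exact le_rfl

theorem sum_push (φ : Cube n → Cube n) (w : Cube n → ℝ) : ∑ y, push φ w y = ∑ x, w x := by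
  unfold push
  rw [Finset.sum_comm]
  simp

theorem push_supp {φ : Cube n → Cube n} {w : Cube n → ℝ} {y : Cube n} (h : push φ w y ≠ 0) :
    y ∈ (Finset.univ.filter fun x => w x ≠ 0).image φ := by
  unfold push at h
  obtain ⟨x, -, hx⟩ := Finset.exists_ne_zero_of_sum_ne_zero h
  rw [Finset.mem_image]
  refine ⟨x, ?_, ?_⟩
  · simp only [Finset.mem_filter, Finset.mem_univ, true_and]
    intro h0
    apply hx
    simp [h0]
  · by_contra hne
    exact hx (if_neg hne)

/-- points of the straight line between the images under contiguous maps -/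
theorem line_mem {r : ℕ} {φ ψ : Cube n → Cube n} (h : Contig r φ ψ) {w : Cube n → ℝ}
    (hw : w ∈ Realization n r) {t : ℝ} (h0 : 0 ≤ t) (h1 : t ≤ 1) :
    (1 - t) • push φ w + t • push ψ w ∈ Realization n (r + 1) := by
  obtain ⟨hw0, hw1, hw2⟩ := hw
  have hsum : ∑ x, ((1 - t) • push φ w + t • push ψ w) x = 1 := by
    simp only [Pi.add_apply, Pi.smul_apply, smul_eq_mul, Finset.sum_add_distrib,
      ← Finset.mul_sum, sum_push, hw1]
    ring
  refine ⟨fun x => ?_, hsum, ?_⟩
  · simp only [Pi.add_apply, Pi.smul_apply, smul_eq_mul]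
    have h2 := push_nonneg (φ := φ) hw0 x
    have h3 := push_nonneg (φ := ψ) hw0 x
    have : 0 ≤ 1 - t := by linarith
    positivity
  · refine (h _ hw2).mono ?_ ?_
    · intro y hy
      simp only [Finset.mem_filter, Finset.mem_univ, true_and, Pi.add_apply, Pi.smul_apply,
        smul_eq_mul] at hy
      rw [Finset.mem_union]
      by_contra hcon
      push Not at hcon
      have h2 : push φ w y = 0 := by
        by_contra h3; exact hcon.1 (push_supp h3)
      have h3 : push ψ w y = 0 := by
        by_contra h3; exact hcon.2 (push_supp h3)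
      rw [h2, h3] at hy
      simp at hy
    · by_contra hemp
      rw [Finset.not_nonempty_iff_eq_empty] at hemp
      have : ∑ x, ((1 - t) • push φ w + t • push ψ w) x = 0 := by
        refine Finset.sum_eq_zero fun x _ => ?_
        by_contra h2
        have : x ∈ Finset.univ.filter
            (fun x => ((1 - t) • push φ w + t • push ψ w) x ≠ 0) := by simpa using h2
        rw [hemp] at this
        simp at this
      rw [hsum] at this
      exact one_ne_zero this

theorem push_mem {r : ℕ} {φ : Cube n → Cube n} (h : Contig r φ φ) {w : Cube n → ℝ}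
    (hw : w ∈ Realization n r) : push φ w ∈ Realization n (r + 1) := by
  have := line_mem h hw le_rfl zero_le_one
  simpa using this

theorem Contig.left {r : ℕ} {φ ψ : Cube n → Cube n} (h : Contig r φ ψ) : Contig r φ φ := by
  intro σ hσ
  refine (h σ hσ).mono ?_ ((hσ.1.image _).mono Finset.subset_union_left)
  rw [Finset.union_self]
  exact Finset.subset_union_left

theorem Contig.right {r : ℕ} {φ ψ : Cube n → Cube n} (h : Contig r φ ψ) : Contig r ψ ψ := by
  intro σ hσ
  refine (h σ hσ).mono ?_ ((hσ.1.image _).mono Finset.subset_union_left)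
  rw [Finset.union_self]
  exact Finset.subset_union_right

/-- the map of realizations induced by a map of the vertices -/
def realMap {r : ℕ} (φ : Cube n → Cube n) (h : Contig r φ φ) :
    C(Realization n r, Realization n (r + 1)) where
  toFun w := ⟨push φ w.1, push_mem h w.2⟩
  continuous_toFun := ((continuous_push φ).comp continuous_subtype_val).subtype_mk _

theorem homotopic_of_contig {r : ℕ} {φ ψ : Cube n → Cube n} (h : Contig r φ ψ) :
    (realMap φ h.left).Homotopic (realMap ψ h.right) := by
  refine ⟨{ toFun := fun p => ⟨(1 - (p.1 : ℝ)) • push φ p.2.1 + (p.1 : ℝ) • push ψ p.2.1,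
              line_mem h p.2.2 p.1.2.1 p.1.2.2⟩
            continuous_toFun := ?_
            map_zero_left := ?_
            map_one_left := ?_ }⟩
  · refine Continuous.subtype_mk ?_ _
    have h1 : Continuous fun p : unitInterval × Realization n r => (p.1 : ℝ) :=
      continuous_subtype_val.comp continuous_fst
    have h2 : Continuous fun p : unitInterval × Realization n r => (p.2 : Cube n → ℝ) :=
      continuous_subtype_val.comp continuous_snd
    exact ((continuous_const.sub h1).smul ((continuous_push φ).comp h2)).add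
      (h1.smul ((continuous_push ψ).comp h2))
  · intro w
    apply Subtype.ext
    simp [realMap]
  · intro w
    apply Subtype.ext
    simp [realMap]

/-! ### the inclusion -/

theorem contig_id (hn : 1 ≤ n) (r : ℕ) : Contig (n := n) r id id := by
  intro σ hσ
  rw [Finset.union_self, Finset.image_id]
  refine ⟨hσ.1, ?_⟩
  rcases hσ.2 with ⟨he, c, hc⟩ | ⟨ho, v, w, hvw, hv⟩
  · right
    obtain ⟨u, hu⟩ := exists_nbr hn c
    exact ⟨he.add_one, c, u, hu, fun x hx => Or.inl (by simpa using hc x hx)⟩
  · left
    obtain ⟨u, hu⟩ := exists_end hvw hv 0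
    have hs : (r + 1) / 2 = (r - 1) / 2 + 1 := by obtain ⟨s, rfl⟩ := ho; omega
    rw [hs]
    exact ⟨ho.add_one, u, fun x hx => (hu x hx).1⟩

/-- `N(I_n, r)` is contained in `N(I_n, r + 1)` -/
theorem realization_subset (hn : 1 ≤ n) (r : ℕ) : Realization n r ⊆ Realization n (r + 1) := by
  rintro w ⟨h0, h1, h2⟩
  have h3 := contig_id hn r _ h2
  rw [Finset.union_self, Finset.image_id] at h3
  exact ⟨h0, h1, h3⟩

/-- the inclusion of `N(I_n, r)` into `N(I_n, r + 1)` -/
def incl (hn : 1 ≤ n) (r : ℕ) : C(Realization n r, Realization n (r + 1)) where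
  toFun := Set.inclusion (realization_subset hn r)
  continuous_toFun := continuous_inclusion (realization_subset hn r)

theorem step (hn : 1 ≤ n) {r : ℕ} (j : Fin n) (φ : Cube n → Cube n)
    (hφ : ∀ σ : Finset (Cube n), IsSimplex n r σ → IsSimplex n r (σ.image φ))
    (h1 : Contig r φ φ) (h2 : Contig r (lower j ∘ φ) (lower j ∘ φ)) :
    (realMap φ h1).Homotopic (realMap (lower j ∘ φ) h2) := by
  rcases Nat.even_or_odd r with hr | hr
  · exact homotopic_of_contig (contig_even hn hr j φ hφ)
  · exact (homotopic_of_contig (contig_odd_one hr j φ hφ)).trans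
      (homotopic_of_contig (contig_odd_two hr j φ hφ))

/-- **Q1**: for every `n ≥ 1` and every `r ≥ 0` the inclusion `N(I_n, r) → N(I_n, r + 1)` is
null-homotopic. -/
theorem result (n : ℕ) (hn : 1 ≤ n) (r : ℕ) : (incl hn r).Nullhomotopic := by
  classical
  -- the maps which set the coordinates in the list `L` to `0`
  have main : ∀ L : List (Fin n), ∃ φ : Cube n → Cube n, ∃ h : Contig r φ φ,
      (∀ σ : Finset (Cube n), IsSimplex n r σ → IsSimplex n r (σ.image φ)) ∧
      (∀ x, ∀ j ∈ L, φ x j = false) ∧ (incl hn r).Homotopic (realMap φ h) := by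
    intro L
    induction L with
    | nil =>
      refine ⟨id, contig_id hn r, fun σ hσ => by simpa using hσ, by simp, ?_⟩
      have : incl hn r = realMap id (contig_id hn r) := by
        ext w y
        simp [incl, realMap, push, Set.inclusion]
      rw [this]
    | cons j L ih =>
      obtain ⟨φ, h, h1, h2, h3⟩ := ih
      have h4 : ∀ σ : Finset (Cube n), IsSimplex n r σ →
          IsSimplex n r (σ.image (lower j ∘ φ)) := by
        intro σ hσ
        rw [← Finset.image_image]
        exact (h1 σ hσ).lower hn j
      have h5 : Contig r (lower j ∘ φ) (lower j ∘ φ) := by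
        intro σ hσ
        have := contig_id hn r _ (h4 σ hσ)
        simpa using this
      refine ⟨lower j ∘ φ, h5, h4, ?_, h3.trans (step hn j φ h1 h h5)⟩
      intro x i hi
      simp only [Function.comp, lower]
      by_cases hij : i = j
      · subst hij; simp
      · rw [Function.update_of_ne hij]
        rcases List.mem_cons.1 hi with h6 | h6
        · exact absurd h6 hij
        · exact h2 x i h6
  obtain ⟨φ, h, h1, h2, h3⟩ := main (List.finRange n)
  have hφ : ∀ x, φ x = fun _ => false := fun x => funext fun j => h2 x j (List.mem_finRange j)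
  -- a point of the target
  have hp : (fun y => if y = (fun _ => false) then (1:ℝ) else 0) ∈ Realization n (r + 1) := by
    refine ⟨fun y => by dsimp only; split_ifs <;> norm_num, by simp, ?_⟩
    have hsing : (Finset.univ.filter fun y : Cube n =>
        (if y = (fun _ => false) then (1:ℝ) else 0) ≠ 0) = {fun _ => false} := by
      ext y
      simp
    rw [hsing]
    refine ⟨Finset.singleton_nonempty _, ?_⟩
    rcases Nat.even_or_odd (r + 1) with he | ho
    · left
      refine ⟨he, fun _ => false, fun x hx => ?_⟩
      rw [Finset.mem_singleton.1 hx, hammingDist_self]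
      exact Nat.zero_le _
    · right
      obtain ⟨u, hu⟩ := exists_nbr hn (fun _ => false)
      refine ⟨ho, fun _ => false, u, hu, fun x hx => Or.inl ?_⟩
      rw [Finset.mem_singleton.1 hx, hammingDist_self]
      exact Nat.zero_le _
  refine ⟨⟨_, hp⟩, ?_⟩
  have hconst : realMap φ h = ContinuousMap.const _ ⟨_, hp⟩ := by
    ext w y
    obtain ⟨-, hw1, -⟩ := w.2
    simp only [realMap, push, ContinuousMap.coe_mk, ContinuousMap.const_apply, hφ]
    by_cases hy : y = fun _ => false
    · subst hy
      simpa using hw1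
    · have : ¬ ((fun _ => false) = y) := fun h => hy h.symm
      simp [hy, this]
  rw [← hconst]
  exact h3

end Pool.Agent.Results.MP_117f64_co.ConsecutiveInclusions
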